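import Mathlib

open Set Filter Topology

namespace Pool.Agent.H.MP_307271_an

def dn (a b : Fin 4) : ℕ :=
  if a = b then 0 else if (a = 2 ∧ b ≠ 3) ∨ (b = 2 ∧ a ≠ 3) then 1 else 2

def R (i : ℤ) (n : ℕ) (j : ℤ) (a b c e : Fin 4) : Prop :=
  (a = 3 → c = 3 → i < j → i + 64 ≤ j) ∧
  (a = 3 → b = 3 → i < j → j < i + 1 + 16 ^ n → c = 0 ∨ c = 1) ∧
  (a = 3 → b = 3 → c = 3 → e = 3 → i < j → i + 1 + 2 * 16 ^ n ≤ j)

def X0 : Set (ℤ → Fin 4) :=
  {x | ∀ (i : ℤ) (n : ℕ) (j : ℤ) (m : ℕ),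
    R i n j (x i) (x (i + 1 + 16 ^ n)) (x j) (x (j + 1 + 16 ^ m))}

lemma X0_closed : IsClosed X0 := by
  have : X0 = ⋂ (i : ℤ), ⋂ (n : ℕ), ⋂ (j : ℤ), ⋂ (m : ℕ),
      {x | R i n j (x i) (x (i + 1 + 16 ^ n)) (x j) (x (j + 1 + 16 ^ m))} := by
    ext x; simp only [X0, mem_ofPred_eq, mem_iInter]
  rw [this]
  refine isClosed_iInter fun i => isClosed_iInter fun n => isClosed_iInter fun j =>
    isClosed_iInter fun m => ?_
  exact (isClosed_discrete {q : Fin 4 × Fin 4 × Fin 4 × Fin 4 |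
    R i n j q.1 q.2.1 q.2.2.1 q.2.2.2}).preimage (f := fun x : ℤ → Fin 4 =>
      (x i, x (i + 1 + 16 ^ n), x j, x (j + 1 + 16 ^ m))) (by fun_prop)

lemma mem_sub {x y : ℤ → Fin 4} (hx : x ∈ X0) (h1 : ∀ t, y t = 3 → x t = 3)
    (h2 : ∀ (i : ℤ) (n : ℕ) (t : ℤ), y i = 3 → y (i + 1 + 16 ^ n) = 3 → i < t →
      t < i + 1 + 16 ^ n → y t = 0 ∨ y t = 1) : y ∈ X0 := fun i n j m =>
  ⟨fun a c => (hx i n j m).1 (h1 _ a) (h1 _ c), fun a b => h2 i n j a b,
    fun a b c e => (hx i n j m).2.2 (h1 _ a) (h1 _ b) (h1 _ c) (h1 _ e)⟩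

lemma mem_shift {x : ℤ → Fin 4} (hx : x ∈ X0) (k : ℤ) : (fun t => x (t + k)) ∈ X0 := by
  intro i n j m
  have h := hx (i + k) n (j + k) m
  rw [show i + k + 1 + 16 ^ n = i + 1 + 16 ^ n + k by ring,
    show j + k + 1 + 16 ^ m = j + 1 + 16 ^ m + k by ring] at h
  refine ⟨fun a c d => ?_, fun a b c d => h.2.1 a b (by omega) (by omega), fun a b c e d => ?_⟩
  · have := h.1 a c (by omega); omega
  · have := h.2.2 a b c e (by omega); omega

def Pt : Type := {x : ℤ → Fin 4 // x ∈ X0}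

instance : TopologicalSpace Pt := instTopologicalSpaceSubtype

instance : CompactSpace Pt := isCompact_iff_compactSpace.1 X0_closed.isCompact

noncomputable def tm (x y : Pt) (n : ℤ) : ℝ := (dn (x.1 n) (y.1 n) : ℝ) / 2 ^ n.natAbs

noncomputable def DD (x y : Pt) : ℝ := ⨆ n, tm x y n

lemma dn_le : ∀ a b : Fin 4, dn a b ≤ 2 := by decide
lemma dn_ge : ∀ a b : Fin 4, a ≠ b → 1 ≤ dn a b := by decide
lemma dn_self : ∀ a : Fin 4, dn a a = 0 := by decide
lemma dn_symm : ∀ a b : Fin 4, dn a b = dn b a := by decide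
lemma dn_tri : ∀ a b c : Fin 4, dn a c ≤ dn a b + dn b c := by decide

lemma tm_le (x y : Pt) (n : ℤ) (r : ℕ) (h : r ≤ n.natAbs) : tm x y n ≤ 2 / 2 ^ r := by
  unfold tm
  have h1 : (dn (x.1 n) (y.1 n) : ℝ) ≤ 2 := by exact_mod_cast dn_le _ _
  have h2 : (2 : ℝ) ^ r ≤ 2 ^ n.natAbs := pow_le_pow_right₀ (by norm_num) h
  gcongr

lemma le_DD (x y : Pt) (n : ℤ) : tm x y n ≤ DD x y :=
  le_ciSup (f := tm x y) ⟨2 / 2 ^ 0, by rintro _ ⟨n, rfl⟩; exact tm_le x y n 0 (by omega)⟩ n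

lemma DD_le_of (x y : Pt) (r : ℕ) (h : ∀ n : ℤ, n.natAbs < r → x.1 n = y.1 n) :
    DD x y ≤ 2 / 2 ^ r := by
  refine ciSup_le fun n => ?_
  by_cases hn : n.natAbs < r
  · unfold tm; rw [h n hn, dn_self]; simp; positivity
  · exact tm_le x y n r (by omega)

lemma eq_of_DD (x y : Pt) (r : ℕ) (h : DD x y < 1 / 2 ^ r) (n : ℤ) (hn : n.natAbs ≤ r) :
    x.1 n = y.1 n := by
  by_contra hne
  have h1 : (1 : ℝ) ≤ dn (x.1 n) (y.1 n) := by exact_mod_cast dn_ge _ _ hne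
  have h2 : (2 : ℝ) ^ n.natAbs ≤ 2 ^ r := pow_le_pow_right₀ (by norm_num) hn
  have h3 : 1 / 2 ^ r ≤ tm x y n := by unfold tm; gcongr
  linarith [le_DD x y n]

def Cyl (x : Pt) (r : ℕ) : Set Pt := {y | ∀ n : ℤ, n.natAbs ≤ r → y.1 n = x.1 n}

lemma Cyl_nhds (x : Pt) (r : ℕ) : Cyl x r ∈ 𝓝 x := by
  have : Cyl x r = ⋂ n ∈ Finset.Icc (-r : ℤ) r, {y : Pt | y.1 n = x.1 n} := by
    ext y
    simp only [Cyl, mem_ofPred_eq, mem_iInter, Finset.mem_Icc]
    exact forall_congr' fun n => imp_congr_left (by omega)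
  rw [this, biInter_finset_mem]
  intro n _
  refine IsOpen.mem_nhds ?_ rfl
  exact (isOpen_discrete {x.1 n}).preimage (f := fun y : Pt => y.1 n)
    ((continuous_apply n).comp continuous_subtype_val)

lemma Cyl_sub {s : Set Pt} (hs : IsOpen s) {x : Pt} (hx : x ∈ s) : ∃ r, Cyl x r ⊆ s := by
  obtain ⟨t, ht, rfl⟩ := isOpen_induced_iff.1 hs
  obtain ⟨I, u, h1, h2⟩ := isOpen_pi_iff.1 ht x.1 hx
  refine ⟨I.sup Int.natAbs, fun y hy => h2 fun a ha => ?_⟩
  rw [hy a (Finset.le_sup (f := Int.natAbs) ha)]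
  exact (h1 a ha).2

lemma small {ε : ℝ} (h : 0 < ε) : ∃ r : ℕ, 2 / 2 ^ r < ε := by
  obtain ⟨r, hr⟩ := exists_pow_lt_of_lt_one (half_pos h) (by norm_num : (1 / 2 : ℝ) < 1)
  refine ⟨r, ?_⟩
  rw [one_div, inv_pow] at hr
  rw [div_eq_mul_inv]; linarith

noncomputable instance : MetricSpace Pt :=
  MetricSpace.ofDistTopology DD
    (fun x => by simp [DD, tm, dn_self])
    (fun x y => by simp only [DD, tm, dn_symm (x.1 _)])
    (fun x y z => ciSup_le fun n => by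
      refine le_trans ?_ (add_le_add (le_DD x y n) (le_DD y z n))
      unfold tm
      rw [← add_div]
      gcongr
      exact_mod_cast dn_tri _ _ _)
    (fun s => ⟨fun hs x hx => by
      obtain ⟨r, hr⟩ := Cyl_sub hs hx
      exact ⟨1 / 2 ^ r, by positivity, fun y hy => hr fun n hn => (eq_of_DD x y r hy n hn).symm⟩,
      fun h => isOpen_iff_mem_nhds.2 fun x hx => by
        obtain ⟨ε, hε, h1⟩ := h x hx
        obtain ⟨r, hr⟩ := small hε
        exact mem_of_superset (Cyl_nhds x r) fun y hy => h1 y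
          ((DD_le_of x y r fun n hn => (hy n hn.le).symm).trans_lt hr)⟩)
    (fun x y h => Subtype.ext (funext fun n => eq_of_DD x y n.natAbs (by rw [h]; positivity) n le_rfl))

lemma dist_eq (x y : Pt) : dist x y = DD x y := rfl

def sh (k : ℤ) (x : Pt) : Pt := ⟨fun t => x.1 (t + k), mem_shift x.2 k⟩

lemma val_cont (t : ℤ) : Continuous fun x : Pt => x.1 t :=
  (continuous_apply t).comp continuous_subtype_val

lemma sh_cont (k : ℤ) : Continuous (sh k) :=
  continuous_induced_rng.2 (continuous_pi fun t => val_cont (t + k))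

def FF : Pt ≃ₜ Pt where
  toFun := sh 1
  invFun := sh (-1)
  left_inv x := Subtype.ext (funext fun t => by simp [sh])
  right_inv x := Subtype.ext (funext fun t => by simp [sh])
  continuous_toFun := sh_cont 1
  continuous_invFun := sh_cont (-1)

lemma FF_iter (k : ℕ) (x : Pt) (t : ℤ) : (FF^[k] x).1 t = x.1 (t + k) := by
  induction k generalizing t with
  | zero => simp
  | succ k ih =>
    rw [Function.iterate_succ_apply']
    show (FF^[k] x).1 (t + 1) = _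
    rw [ih]; push_cast; ring_nf

lemma glue (x y : Pt) (r : ℕ) : ∃ z ∈ Cyl x r, ∃ N : ℕ, FF^[N] z ∈ Cyl y r := by
  classical
  obtain ⟨P, hP, hP1, hP2⟩ : ∃ P : ℤ, 256 * (r : ℤ) + 256 ≤ P ∧ (0 ≤ P) ∧
      ∀ n : ℕ, (16 : ℤ) ^ n ≤ P ∨ 16 * P ≤ 16 ^ n := by
    refine ⟨16 ^ (r + 2), ?_, by positivity, fun n => ?_⟩
    · have : r < 16 ^ r := Nat.lt_pow_self (by norm_num)
      have : (r : ℤ) < 16 ^ r := by exact_mod_cast this
      rw [pow_add]; omega
    · rcases le_or_gt n (r + 2) with h | h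
      · exact Or.inl (pow_le_pow_right₀ (by norm_num) h)
      · right
        rw [← pow_succ']
        exact pow_le_pow_right₀ (by norm_num) h
  let z : ℤ → Fin 4 := fun t => if t.natAbs ≤ r then x.1 t else
    if (t - 2 * P).natAbs ≤ r then y.1 (t - 2 * P) else 0
  have zl : ∀ t : ℤ, t.natAbs ≤ r → z t = x.1 t := fun t h => if_pos h
  have zr : ∀ t : ℤ, (t - 2 * P).natAbs ≤ r → z t = y.1 (t - 2 * P) := fun t h => by
    simp only [z]; rw [if_neg (by omega), if_pos h]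
  have z3 : ∀ t : ℤ, z t = 3 → t.natAbs ≤ r ∨ (t - 2 * P).natAbs ≤ r := fun t h => by
    by_contra hh
    simp only [z] at h
    rw [if_neg (by omega), if_neg (by omega)] at h
    exact absurd h (by decide)
  have hy := mem_shift y.2 (-(2 * P))
  simp only [← sub_eq_add_neg] at hy
  have hz : z ∈ X0 := by
    intro i n j m
    have p1 := hP2 n
    have p2 := hP2 m
    have p3 : (0 : ℤ) < 16 ^ n := by positivity
    have p4 : (0 : ℤ) < 16 ^ m := by positivity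
    have hx1 := x.2 i n j m
    have hy1 := hy i n j m
    refine ⟨fun a c d => ?_, fun a b c d => ?_, fun a b c e d => ?_⟩
    · rcases z3 _ a with a1 | a1 <;> rcases z3 _ c with c1 | c1
      · exact hx1.1 (zl _ a1 ▸ a) (zl _ c1 ▸ c) d
      · omega
      · omega
      · exact hy1.1 ((zr _ a1).symm.trans a) ((zr _ c1).symm.trans c) d
    · rcases z3 _ a with a1 | a1 <;> rcases z3 _ b with b1 | b1
      · rw [zl j (by omega)]
        exact hx1.2.1 (zl _ a1 ▸ a) (zl _ b1 ▸ b) c d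
      · omega
      · omega
      · rw [zr j (by omega)]
        exact hy1.2.1 ((zr _ a1).symm.trans a) ((zr _ b1).symm.trans b) c d
    · rcases z3 _ a with a1 | a1 <;> rcases z3 _ b with b1 | b1 <;>
        rcases z3 _ c with c1 | c1 <;> rcases z3 _ e with e1 | e1
      all_goals first
        | omega
        | exact hx1.2.2 (zl _ a1 ▸ a) (zl _ b1 ▸ b) (zl _ c1 ▸ c) (zl _ e1 ▸ e) d
        | exact hy1.2.2 ((zr _ a1).symm.trans a) ((zr _ b1).symm.trans b) ((zr _ c1).symm.trans c) ((zr _ e1).symm.trans e) d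
  refine ⟨⟨z, hz⟩, fun n hn => zl n hn, (2 * P).toNat, fun n hn => ?_⟩
  rw [FF_iter]
  show z _ = _
  rw [zr _ (by omega), show n + ((2 * P).toNat : ℤ) - 2 * P = n by omega]

lemma ne03 : (0 : Fin 4) ≠ 3 := by decide

def p0 : Pt := ⟨fun _ => 0, fun i n j m => ⟨fun a => absurd a ne03,
  fun a => absurd a ne03, fun a => absurd a ne03⟩⟩

instance : Inhabited Pt := ⟨p0⟩

theorem transitive : ∃ x : Pt, Dense (range fun n : ℕ => FF^[n] x) := by
  have hc := (TopologicalSpace.countable_countableBasis Pt).to_subtype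
  have hb := TopologicalSpace.isBasis_countableBasis Pt
  have hd := dense_iInter_of_isOpen (f := fun b : TopologicalSpace.countableBasis Pt =>
    ⋃ n : ℕ, FF^[n] ⁻¹' b.1) (fun b => isOpen_iUnion fun n =>
      (hb.isOpen b.2).preimage (FF.continuous.iterate n)) (fun b => by
    obtain ⟨y, hy⟩ := TopologicalSpace.nonempty_of_mem_countableBasis b.2
    obtain ⟨r, hr⟩ := Cyl_sub (hb.isOpen b.2) hy
    rw [dense_iff_inter_open]
    rintro U hU ⟨x, hx⟩
    obtain ⟨r', hr'⟩ := Cyl_sub hU hx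
    obtain ⟨z, hz, N, hN⟩ := glue x y (max r r')
    exact ⟨z, hr' fun n hn => hz n (by omega), mem_iUnion.2 ⟨N, hr fun n hn => hN n (by omega)⟩⟩)
  obtain ⟨x, hx⟩ := hd.nonempty
  refine ⟨x, hb.dense_iff.2 fun o ho _ => ?_⟩
  obtain ⟨n, hn⟩ := mem_iUnion.1 (mem_iInter.1 hx ⟨o, ho⟩)
  exact ⟨_, hn, n, rfl⟩

end Pool.Agent.H.MP_307271_an
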